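import Pool.Agent.Helper67.DO.BaseE

/-!
# Module X3: decomposition of the shapes
-/

set_option autoImplicit false

namespace Pool.Agent.Helper67.DO

open scoped BigOperators Real

noncomputable section

/-- membership in the domain of an interval with slits -/
theorem x3_mem {N : ℕ} {b e : ℤ} {I : Set ℤ} {w h : ℝ} (hN : 0 < N) (_ : b < e) (he : e ≤ b + N)
    (hI : ∀ i ∈ I, b < i ∧ i < e) (hw : 0 < w) (z : ℂ) :
    z ∈ US N (PI N b e I) (GI N b e) w h ↔ |z.im| < h ∧ ∃ k : ℤ, (b : ℝ) / N + w < z.re - k ∧
      z.re - k < (e : ℝ) / N - w ∧ ∀ i ∈ I, w < |z.re - k - (i : ℝ) / N| := by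
  have hN' : (0 : ℝ) < N := Nat.cast_pos.2 hN
  have hd : ∀ (j t : ℤ), (((j + t * N : ℤ) : ℝ)) / N = (j : ℝ) / N + t := by
    intro j t
    push_cast
    field_simp
  have hle : ∀ i j : ℤ, i ≤ j → (i : ℝ) / N ≤ (j : ℝ) / N := by
    intro i j hij
    have : (i : ℝ) ≤ j := by exact_mod_cast hij
    gcongr
  have hadd : ∀ j : ℤ, (((j + N : ℤ) : ℝ)) / N = (j : ℝ) / N + 1 := by
    intro j
    have := hd j 1
    rw [one_mul] at this
    rw [this]
    simp
  constructor
  · rintro ⟨h1, h2, h3⟩
    refine ⟨h1, ⌊z.re - (b : ℝ) / N⌋, ?_⟩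
    set k : ℤ := ⌊z.re - (b : ℝ) / N⌋ with hk
    have a1 : (k : ℝ) ≤ z.re - (b : ℝ) / N := Int.floor_le _
    have a2 : z.re - (b : ℝ) / N < k + 1 := Int.lt_floor_add_one _
    have hbN : ((b + N : ℤ) : ℝ) / N = (b : ℝ) / N + 1 := hadd b
    -- the points `j + k N`
    have p1 : ∀ (j t : ℤ), (e ≤ j ∧ j ≤ b + N) ∨ j ∈ I → w < |z.re - ((j : ℝ) / N + t)| := by
      intro j t hj
      have := h2 (j + t * N) ⟨t, by
        rw [add_sub_cancel_right]
        exact hj⟩
      rwa [hd] at this
    have b1 : w < |z.re - (((b + N : ℤ) : ℝ) / N + (k - 1 : ℤ))| :=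
      p1 (b + N) (k - 1) (Or.inl ⟨he, le_rfl⟩)
    rw [hbN] at b1
    push_cast at b1
    have c1 : (b : ℝ) / N + w < z.re - k := by
      rw [lt_abs] at b1
      rcases b1 with b1 | b1 <;> linarith
    have b2 : w < |z.re - (((b + N : ℤ) : ℝ) / N + k)| := p1 (b + N) k (Or.inl ⟨he, le_rfl⟩)
    rw [hbN] at b2
    have c2 : z.re - k < (b : ℝ) / N + 1 - w := by
      rw [lt_abs] at b2
      rcases b2 with b2 | b2 <;> linarith
    refine ⟨c1, ?_, fun i hi => ?_⟩
    · by_contra hc
      push Not at hc
      have b3 := p1 e k (Or.inl ⟨le_rfl, he⟩)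
      have c3 : (e : ℝ) / N < z.re - k := by
        rw [lt_abs] at b3
        rcases b3 with b3 | b3 <;> linarith
      set j : ℤ := ⌊(z.re - k) * N⌋ with hj
      have d1 : (j : ℝ) ≤ (z.re - k) * N := Int.floor_le _
      have d2 : (z.re - k) * N < j + 1 := Int.lt_floor_add_one _
      have d3 : e ≤ j := by
        rw [hj, Int.le_floor]
        rw [div_lt_iff₀ hN'] at c3
        exact c3.le
      have d4 : j < b + N := by
        have : (z.re - k) * N < ((b + N : ℤ) : ℝ) := by
          have e1 : z.re - k < ((b + N : ℤ) : ℝ) / N := by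
            rw [hbN]
            linarith
          rwa [lt_div_iff₀ hN'] at e1
        have e2 : (j : ℝ) < ((b + N : ℤ) : ℝ) := d1.trans_lt this
        exact_mod_cast e2
      have d5 := h3 (j + k * N) ⟨k, by
        rw [add_sub_cancel_right]
        exact ⟨d3, d4⟩⟩
      rw [add_div, hd] at d5
      rw [← div_le_iff₀ hN'] at d1
      have d6 : z.re - k < (j : ℝ) / N + 1 / N := by
        rw [← add_div, lt_div_iff₀ hN']
        exact d2
      rcases d5 with d5 | d5 <;> linarith
    · have := p1 i k (Or.inr hi)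
      rwa [show z.re - ((i : ℝ) / N + k) = z.re - k - (i : ℝ) / N by ring] at this
  · rintro ⟨h1, k, h2, h3, h4⟩
    refine ⟨h1, ?_, ?_⟩
    · rintro j ⟨t, hj⟩
      have e1 : z.re - (j : ℝ) / N = (z.re - k) + ((k - t : ℤ) : ℝ) - ((j - t * N : ℤ) : ℝ) / N := by
        have := hd (j - t * N) t
        rw [sub_add_cancel] at this
        rw [this]
        push_cast
        ring
      rw [e1]
      generalize hs : k - t = s
      generalize hj' : j - t * N = j' at hj ⊢
      rw [lt_abs]
      rcases lt_trichotomy s 0 with hs0 | hs0 | hs0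
      · right
        have hs1 : (s : ℝ) ≤ -1 := by exact_mod_cast (show s ≤ -1 by omega)
        rcases hj with ⟨q1, q2⟩ | hj
        · have := hle e j' q1
          linarith
        · have q3 := hle e (j' + N) (by have := (hI j' hj).1; omega)
          rw [hadd] at q3
          linarith
      · subst hs0
        rcases hj with ⟨q1, q2⟩ | hj
        · right
          have := hle e j' q1
          push_cast
          linarith
        · have := h4 j' hj
          rw [lt_abs] at this
          push_cast
          rcases this with h | h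
          · left; linarith
          · right; linarith
      · left
        have hs1 : (1 : ℝ) ≤ s := by exact_mod_cast (show 1 ≤ s by omega)
        have q3 : (j' : ℝ) / N ≤ (b : ℝ) / N + 1 := by
          rw [← hadd]
          refine hle j' (b + N) ?_
          rcases hj with ⟨q1, q2⟩ | hj
          · exact q2
          · have := (hI j' hj).2
            omega
        linarith
    · rintro j ⟨t, q1, q2⟩
      have e1 : (j : ℝ) / N = ((j - t * N : ℤ) : ℝ) / N + t := by
        have := hd (j - t * N) t
        rwa [sub_add_cancel] at this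
      rw [add_div, e1]
      generalize hj' : j - t * N = j' at q1 q2 ⊢
      rcases le_or_gt k t with hkt | hkt
      · left
        have h5 : (k : ℝ) ≤ t := by exact_mod_cast hkt
        have := hle e j' q1
        linarith
      · right
        have h5 : (t : ℝ) + 1 ≤ k := by exact_mod_cast hkt
        have h6 : ((j' + 1 : ℤ) : ℝ) / N ≤ (b : ℝ) / N + 1 := by
          rw [← hadd]
          exact hle _ _ (by omega)
        push_cast at h6
        rw [add_div] at h6
        linarith

theorem st_X3 : ST_X3 := by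
  intro N b m e I w h hN hbm hme he hI hw hw4 hh
  have hN' : (0 : ℝ) < N := Nat.cast_pos.2 hN
  have hlt : ∀ i j : ℤ, i < j → (i : ℝ) / N < (j : ℝ) / N := by
    intro i j hij
    have : (i : ℝ) < j := by exact_mod_cast hij
    gcongr
  have hbm' := hlt b m hbm
  have hme' := hlt m e hme
  have he' : (e : ℝ) / N ≤ (b : ℝ) / N + 1 := by
    rw [div_add_one hN'.ne']
    have : (e : ℝ) ≤ b + N := by exact_mod_cast he
    gcongr
  have hm1 := fun z => x3_mem (h := h) (I := {m} ∪ I) hN (hbm.trans hme) he (by
    rintro i (hi | hi)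
    · rw [Set.mem_singleton_iff] at hi
      subst hi
      exact ⟨hbm, hme⟩
    · exact ⟨(hI i hi).1, (hI i hi).2.trans hme⟩) hw z
  have hm2 := fun z => x3_mem (h := h) (I := I) hN hbm (hme.le.trans he) hI hw z
  refine ⟨?_, ?_, ?_, isOpen_US hN _ _ _ _, (Shape_PI N b m I).per_US hN w h⟩
  · ext z
    rw [Set.mem_union, hm1, hm2]
    constructor
    · rintro ⟨h1, k, h2, h3, h4⟩
      have h5 := h4 m (Or.inl rfl)
      rw [lt_abs] at h5
      rcases h5 with h5 | h5
      · exact Or.inr ⟨h1, k, by linarith, h3⟩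
      · exact Or.inl ⟨h1, k, h2, by linarith, fun i hi => h4 i (Or.inr hi)⟩
    · rintro (⟨h1, k, h2, h3, h4⟩ | ⟨h1, k, h2, h3⟩)
      · refine ⟨h1, k, h2, by linarith, ?_⟩
        rintro i (hi | hi)
        · rw [Set.mem_singleton_iff] at hi
          subst hi
          rw [lt_abs]
          right
          linarith
        · exact h4 i hi
      · refine ⟨h1, k, by linarith, h3, ?_⟩
        rintro i (hi | hi)
        · rw [Set.mem_singleton_iff] at hi
          subst hi
          rw [lt_abs]
          left
          linarith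
        · have := hlt i m (hI i hi).2
          rw [lt_abs]
          left
          linarith
  · intro z hz
    rw [hm2] at hz
    obtain ⟨-, k, h2, h3, -⟩ := hz
    rintro ⟨k', h5, h6⟩
    rcases le_or_gt k k' with hk | hk
    · have h7 : (k : ℝ) ≤ k' := by exact_mod_cast hk
      linarith
    · have h7 : (k' : ℝ) + 1 ≤ k := by exact_mod_cast hk
      linarith
  · ext z
    rw [x3_mem (h := h) (I := ∅) hN (hbm.trans hme) he (fun i hi => absurd hi (Set.notMem_empty i)) hw z]
    constructor
    · rintro ⟨h1, k, h2, h3, -⟩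
      exact ⟨h1, k, h2, h3⟩
    · rintro ⟨h1, k, h2, h3⟩
      exact ⟨h1, k, h2, h3, fun i hi => absurd hi (Set.notMem_empty i)⟩

end

end Pool.Agent.Helper67.DO
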